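import Pool.Agent.H56.EH.Def2

/-!
# Module GEO: two words whose separating lines change sides at most once
-/

set_option autoImplicit false

namespace Pool.Agent.H56.EH

open Finset

variable {L : ℕ} [NeZero L]

theorem geo_val_add (x : ZMod (2 * L)) : (x + (L : ZMod (2 * L))).val < L ↔ ¬ x.val < L := by
  have hL : 0 < L := Nat.pos_of_ne_zero (NeZero.ne L)
  have h1 : ((L : ℕ) : ZMod (2 * L)).val = L := ZMod.val_natCast_of_lt (by omega)
  have h2 := ZMod.val_lt x
  rw [ZMod.val_add, h1]
  by_cases h : x.val < L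
  · rw [Nat.mod_eq_of_lt (by omega)]
    omega
  · rw [Nat.mod_eq_sub_mod (by omega), Nat.mod_eq_of_lt (by omega)]
    omega

/-- `oc p` is antiperiodic -/
theorem geo_oc_anti (p : ZMod (2 * L)) : Anti L (oc L p) := by
  intro i
  unfold oc
  rw [show i + (L : ZMod (2 * L)) - p = (i - p) + (L : ZMod (2 * L)) by ring]
  by_cases h : (i - p).val < L
  · rw [decide_eq_true h, decide_eq_false (by rw [geo_val_add]; exact not_not.2 h)]
    rfl
  · rw [decide_eq_false h, decide_eq_true ((geo_val_add _).2 h)]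
    rfl

omit [NeZero L] in
theorem geo_sub (n k : ℕ) (hn : n < L) (hk : k ≤ L) :
    oc L (k : ZMod (2 * L)) (n : ZMod (2 * L)) = decide (k ≤ n) := by
  unfold oc
  by_cases h : k ≤ n
  · rw [← Nat.cast_sub h, ZMod.val_natCast_of_lt (by omega), decide_eq_true h,
      decide_eq_true (by omega)]
  · have h1 : (n : ZMod (2 * L)) - (k : ZMod (2 * L)) = ((2 * L + n - k : ℕ) : ZMod (2 * L)) := by
      rw [Nat.cast_sub (by omega), Nat.cast_add, ZMod.natCast_self, zero_add]
    rw [h1, ZMod.val_natCast_of_lt (by omega), decide_eq_false h, decide_eq_false (by omega)]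

theorem geo_sub' (n k : ℕ) (hn : n < L) (hk : k ≤ L) :
    oc L ((k : ZMod (2 * L)) + (L : ZMod (2 * L))) (n : ZMod (2 * L)) = decide (n < k) := by
  have h1 := geo_oc_anti (k : ZMod (2 * L)) ((n : ZMod (2 * L)) + (L : ZMod (2 * L)))
  have h2 := geo_oc_anti (k : ZMod (2 * L)) (n : ZMod (2 * L))
  have hLL : (L : ZMod (2 * L)) + (L : ZMod (2 * L)) = 0 := by
    rw [← Nat.cast_add, ← two_mul, ZMod.natCast_self]
  have h3 : oc L ((k : ZMod (2 * L)) + (L : ZMod (2 * L))) (n : ZMod (2 * L)) =
      oc L (k : ZMod (2 * L)) ((n : ZMod (2 * L)) + (L : ZMod (2 * L))) := by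
    unfold oc
    rw [show (n : ZMod (2 * L)) - ((k : ZMod (2 * L)) + (L : ZMod (2 * L))) =
      (n : ZMod (2 * L)) + (L : ZMod (2 * L)) - (k : ZMod (2 * L)) by
        linear_combination (-1 : ZMod (2 * L)) * hLL]
  rw [h3, h2, geo_sub n k hn hk]
  by_cases h : k ≤ n
  · rw [decide_eq_true h, decide_eq_false (by omega)]
    rfl
  · rw [decide_eq_false h, decide_eq_true (by omega)]
    rfl

/-- the distances add up if `oc p` agrees with `U` wherever `U` and `V` differ -/
theorem geo_add (U V : ZMod (2 * L) → Bool) (p : ZMod (2 * L))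
    (h : ∀ i, U i ≠ V i → oc L p i = U i) :
    hd (oc L p) U + hd (oc L p) (opp V) = hd U (opp V) := by
  unfold hd
  rw [← card_union_of_disjoint]
  · congr 1
    ext i
    rw [mem_union, mem_filter, mem_filter, mem_filter]
    have h1 := h i
    unfold opp
    generalize oc L p i = a at h1
    generalize U i = b at h1
    generalize V i = c at h1
    revert h1
    cases a <;> cases b <;> cases c <;> simp
  · rw [disjoint_filter]
    intro i _ h1 h2
    have h3 := h i
    unfold opp at h2
    revert h1 h2 h3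
    generalize oc L p i = a
    generalize U i = b
    generalize V i = c
    cases a <;> cases b <;> cases c <;> simp

/-- every point of the circle -/
theorem geo_all {U V W : ZMod (2 * L) → Bool} (hU : Anti L U) (hV : Anti L V) (hW : Anti L W)
    (h : ∀ n < L, U (n : ℕ) ≠ V (n : ℕ) → W (n : ℕ) = U (n : ℕ)) (i : ZMod (2 * L)) :
    U i ≠ V i → W i = U i := by
  have h2 := ZMod.val_lt i
  have h3 : ((i.val : ℕ) : ZMod (2 * L)) = i := ZMod.natCast_zmod_val i
  by_cases hi : i.val < L
  · have := h i.val hi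
    rwa [h3] at this
  · have h4 : ((i.val - L : ℕ) : ZMod (2 * L)) + (L : ZMod (2 * L)) = i := by
      rw [← Nat.cast_add, Nat.sub_add_cancel (by omega), h3]
    have h5 := h (i.val - L) (by omega)
    rw [← h4, hU, hV, hW]
    intro hne
    rw [h5 fun h0 => hne (by rw [h0])]

theorem geo (U V : ZMod (2 * L) → Bool) (hU : Anti L U) (hV : Anti L V)
    (h : Coex L U V ∨ Coex L V U) : ∃ p : ZMod (2 * L),
      hd (oc L p) U + hd (oc L p) (opp V) = hd U (opp V) := by
  rcases h with ⟨k, hk, h1, h2⟩ | ⟨k, hk, h1, h2⟩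
  · refine ⟨(k : ZMod (2 * L)) + (L : ZMod (2 * L)), geo_add U V _ ?_⟩
    refine geo_all hU hV (geo_oc_anti _) fun n hn hne => ?_
    rw [geo_sub' n k hn hk]
    by_cases hnk : n < k
    · rw [decide_eq_true hnk]
      have h3 := h1 n hnk
      cases hu : U (n : ℕ)
      · cases hv : V (n : ℕ)
        · exact absurd (by rw [hu, hv]) hne
        · exact absurd ⟨hu, hv⟩ h3
      · rfl
    · rw [decide_eq_false hnk]
      have h3 := h2 n (by omega) hn
      cases hu : U (n : ℕ)
      · rfl
      · cases hv : V (n : ℕ)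
        · exact absurd ⟨hu, hv⟩ h3
        · exact absurd (by rw [hu, hv]) hne
  · refine ⟨(k : ZMod (2 * L)), geo_add U V _ ?_⟩
    refine geo_all hU hV (geo_oc_anti _) fun n hn hne => ?_
    rw [geo_sub n k hn hk]
    by_cases hnk : k ≤ n
    · rw [decide_eq_true hnk]
      have h3 := h2 n hnk hn
      cases hu : U (n : ℕ)
      · cases hv : V (n : ℕ)
        · exact absurd (by rw [hu, hv]) hne
        · exact absurd ⟨hv, hu⟩ h3
      · rfl
    · rw [decide_eq_false hnk]
      have h3 := h1 n (by omega)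
      cases hu : U (n : ℕ)
      · rfl
      · cases hv : V (n : ℕ)
        · exact absurd ⟨hv, hu⟩ h3
        · exact absurd (by rw [hu, hv]) hne

end Pool.Agent.H56.EH
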